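import Pool.Agent.MP_4168de_an.G.Alg0

/-! An invariant nonzero module of cycles has full rank. -/

namespace Pool.Agent.MP_4168de_an.G

open Matrix

section minors

variable {R A : Type} [CommRing R] {ρ : ℕ}

/-- The minor of the family `C` at the rows `K`. -/
def pl_Alg (C : Fin ρ → A → R) (K : Fin ρ → A) : R := (Matrix.of fun i j => C j (K i)).det

lemma pl_eq_Alg (C : Fin ρ → A → R) (K : Fin ρ → A) :
    pl_Alg C K = (detRowAlternating : (Fin ρ → R) [⋀^Fin ρ]→ₗ[R] R).toMultilinearMap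
      (fun i j => C j (K i)) := rfl

lemma pl_swap_Alg (C : Fin ρ → A → R) (K : Fin ρ → A) {i j : Fin ρ} (h : i ≠ j) :
    pl_Alg C (K ∘ Equiv.swap i j) = -pl_Alg C K := by
  have := det_permute (Equiv.swap i j) (Matrix.of fun i j => C j (K i))
  rw [Equiv.Perm.sign_swap h] at this
  simp only [Units.val_neg, Units.val_one, Int.cast_neg, Int.cast_one, neg_mul, one_mul] at this
  exact this

lemma pl_lin_Alg [Fintype A] (C : Fin ρ → A → R) (f : A → R) (hf : ∀ j, ∑ x, f x * C j x = 0)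
    (K : Fin ρ → A) (i : Fin ρ) : ∑ x, f x * pl_Alg C (Function.update K i x) = 0 := by
  classical
  let L := (detRowAlternating : (Fin ρ → R) [⋀^Fin ρ]→ₗ[R] R).toMultilinearMap.toLinearMap
    (fun i j => C j (K i)) i
  have h1 : ∀ x, pl_Alg C (Function.update K i x) = L (fun j => C j x) := by
    intro x
    rw [pl_eq_Alg]
    simp only [L, MultilinearMap.toLinearMap_apply]
    congr 1
    ext k j
    by_cases hk : k = i
    · subst hk; simp
    · simp [Function.update_of_ne hk]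
  have h2 : (∑ x, f x • fun j => C j x) = 0 := by
    ext j
    simpa [Finset.sum_apply] using hf j
  calc ∑ x, f x * pl_Alg C (Function.update K i x) = L (∑ x, f x • fun j => C j x) := by
        rw [map_sum]
        exact Finset.sum_congr rfl fun x _ => by rw [h1, map_smul, smul_eq_mul]
    _ = 0 := by rw [h2, map_zero]

lemma pl_mulVec_Alg [Fintype A] (C : Fin ρ → A → R) (J : Matrix A A R) (I : Fin ρ → A) :
    pl_Alg (fun j => J *ᵥ C j) I = ∑ K : Fin ρ → A, (∏ i, J (I i) (K i)) * pl_Alg C K := by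
  classical
  have h1 : (fun i j => (J *ᵥ C j) (I i)) = fun i => ∑ x, J (I i) x • fun j => C j x := by
    ext i j
    simp [Matrix.mulVec, dotProduct, Finset.sum_apply]
  rw [pl_eq_Alg, h1, MultilinearMap.map_sum]
  refine Finset.sum_congr rfl fun K _ => ?_
  rw [MultilinearMap.map_smul_univ, smul_eq_mul, pl_eq_Alg]

lemma pl_map_Alg (φ : R →+* R) (C : Fin ρ → A → R) (K : Fin ρ → A) :
    pl_Alg (fun j x => φ (C j x)) K = φ (pl_Alg C K) := by
  unfold pl_Alg
  rw [RingHom.map_det]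
  rfl

lemma pl_comb_Alg (C C' : Fin ρ → A → R) (D : R) (G : Fin ρ → Fin ρ → R)
    (h : ∀ j, D • C' j = ∑ k, G j k • C k) (I : Fin ρ → A) :
    D ^ ρ * pl_Alg C' I = pl_Alg C I * (Matrix.of G).det := by
  have h1 : D • (Matrix.of fun i j => C' j (I i))
      = (Matrix.of fun i j => C j (I i)) * (Matrix.of G)ᵀ := by
    ext i j
    have := congrFun (h j) (I i)
    simp only [Pi.smul_apply, Finset.sum_apply, smul_eq_mul] at this
    simp only [Matrix.smul_apply, Matrix.of_apply, smul_eq_mul, Matrix.mul_apply,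
      Matrix.transpose_apply, this]
    exact Finset.sum_congr rfl fun k _ => mul_comm _ _
  have h2 := congrArg Matrix.det h1
  rw [det_smul, det_mul, det_transpose, Fintype.card_fin] at h2
  exact h2

end minors

open PowerSeries in
lemma lead_Alg {κ : Type} (F : κ → PowerSeries ℝ) (hF : F ≠ 0) :
    ∃ (m : ℕ) (H : κ → PowerSeries ℝ), (∀ K, F K = X ^ m * H K) ∧
      ∃ K, constantCoeff (H K) ≠ 0 := by
  classical
  have h0 : ∃ m, ∃ K, coeff m (F K) ≠ 0 := by
    by_contra h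
    push Not at h
    exact hF (funext fun K => PowerSeries.ext fun m => by simpa using h m K)
  have h1 : ∀ K, (X : PowerSeries ℝ) ^ Nat.find h0 ∣ F K := fun K =>
    X_pow_dvd_iff.2 fun m hm => by
      have := Nat.find_min h0 hm
      push Not at this
      exact this K
  choose H hH using h1
  obtain ⟨K, hK⟩ := Nat.find_spec h0
  refine ⟨_, H, hH, K, fun h => hK ?_⟩
  have := coeff_X_pow_mul (H K) (Nat.find h0) 0
  rw [zero_add, coeff_zero_eq_constantCoeff_apply, h, ← hH] at this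
  exact this

open PowerSeries in
lemma cc_rescale_Alg (c : ℝ) (f : PowerSeries ℝ) :
    constantCoeff (rescale c f) = constantCoeff f := by
  rw [← coeff_zero_eq_constantCoeff_apply, coeff_rescale, pow_zero, one_mul,
    coeff_zero_eq_constantCoeff_apply]

open PowerSeries in
lemma c1_exp_Alg (r : ℝ) : coeff 1 (rescale r (exp ℝ)) = r := by
  rw [coeff_rescale, coeff_exp]
  simp

variable {A ι : Type} [Fintype A] [DecidableEq A] [Fintype ι] {d : ℕ}

omit [Fintype A] in
lemma aug_bd_Alg (st en : A → A) (δ : A → Lat d) (p x : A) :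
    aug (bdM st en δ p x) = inc st en p x := by
  unfold bdM inc
  rw [map_sub]
  split_ifs <;> simp

/-- The subspace of cycles of total length zero. -/
def cyc_Alg (st en : A → A) (ℓ : A → ℝ) : Submodule ℂ (A → ℂ) where
  carrier := {v | (∀ p, ∑ x, (inc st en p x : ℂ) * v x = 0) ∧ ∑ x, (ℓ x : ℂ) * v x = 0}
  zero_mem' := by simp
  add_mem' := by
    rintro u v ⟨hu, hu'⟩ ⟨hv, hv'⟩
    refine ⟨fun p => ?_, ?_⟩
    · simp only [Pi.add_apply, mul_add, Finset.sum_add_distrib, hu p, hv p, add_zero]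
    · simp only [Pi.add_apply, mul_add, Finset.sum_add_distrib, hu', hv', add_zero]
  smul_mem' := by
    rintro t v ⟨hv, hv'⟩
    refine ⟨fun p => ?_, ?_⟩
    · simp only [Pi.smul_apply, smul_eq_mul, mul_left_comm _ t, ← Finset.mul_sum, hv p, mul_zero]
    · simp only [Pi.smul_apply, smul_eq_mul, mul_left_comm _ t, ← Finset.mul_sum, hv', mul_zero]

open PowerSeries in
lemma slice_Alg (st en : A → A) (δ : A → Lat d) (ℓ w : A → ℝ) (a : Lat d →+ ℝ)
    (hw : ∀ x, w (en x) + a (δ x) = w (st x) + ℓ x) (ev : Rg d →+* PowerSeries ℝ)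
    (h1 : ∀ v, ev (mono v) = rescale (a v) (exp ℝ))
    (h2 : ∀ P, constantCoeff (ev P) = (aug P : ℝ)) (H : A → PowerSeries ℝ)
    (hH : ∀ p, ∑ x, ev (bdM st en δ p x) * H x = 0) :
    (fun x => ((constantCoeff (H x) : ℝ) : ℂ)) ∈ cyc_Alg st en ℓ := by
  refine ⟨fun p => ?_, ?_⟩
  · have := congrArg constantCoeff (hH p)
    simp only [map_sum, map_mul, h2, aug_bd_Alg, map_zero] at this
    beta_reduce
    exact_mod_cast this
  · have h3 : ∀ x, ∑ p, rescale (w p) (exp ℝ) * ev (bdM st en δ p x)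
        = rescale (w (st x) + ℓ x) (exp ℝ) - rescale (w (st x)) (exp ℝ) := by
      intro x
      have h4 : ∀ p, rescale (w p) (exp ℝ) * ev (bdM st en δ p x)
          = (if en x = p then rescale (w p + a (δ x)) (exp ℝ) else 0)
            - if st x = p then rescale (w p) (exp ℝ) else 0 := by
        intro p
        unfold bdM
        rw [map_sub, mul_sub, ← exp_mul_exp_eq_exp_add]
        split_ifs <;> simp [h1]
      simp only [h4, Finset.sum_sub_distrib, Finset.sum_ite_eq, Finset.mem_univ, if_true, hw]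
    have h5 : ∑ x, (rescale (w (st x) + ℓ x) (exp ℝ) - rescale (w (st x)) (exp ℝ)) * H x = 0 := by
      simp only [← h3, Finset.sum_mul]
      rw [Finset.sum_comm]
      refine Finset.sum_eq_zero fun p _ => ?_
      simp only [mul_assoc, ← Finset.mul_sum, hH p, mul_zero]
    have h6 := congrArg (coeff 1) h5
    simp only [map_sum, coeff_one_mul, map_sub, c1_exp_Alg, cc_rescale_Alg, sub_self, mul_zero,
      add_zero, add_sub_cancel_left, map_zero] at h6
    beta_reduce
    exact_mod_cast h6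

open PowerSeries in
lemma key_Alg (hE : EvStmt) (hT : TensStmt) (st en : A → A) (δ : A → Lat d) (ℓ w : A → ℝ)
    (a : Lat d →+ ℝ) (B : Lat d →+ Lat d) (c : ℝ) (M : Matrix A A ℤ) (J : Matrix A A (Rg d))
    (ψ : ι → A → ℂ) (lam : ι → ℂ) (ha : Function.Injective a)
    (hw : ∀ x, w (en x) + a (δ x) = w (st x) + ℓ x) (hc : 1 < c) (hB : ∀ v, a (B v) = c * a v)
    (hJ : ∀ b x, aug (J b x) = M b x)
    (hψ : ∀ j (v : A → ℂ), (∀ p, ∑ x, (inc st en p x : ℂ) * v x = 0) →
      ψ j ⬝ᵥ (M.map Int.cast) *ᵥ v = lam j * ψ j ⬝ᵥ v)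
    (hs : ∀ v : A → ℂ, (∀ p, ∑ x, (inc st en p x : ℂ) * v x = 0) → ∑ x, (ℓ x : ℂ) * v x = 0 →
      (∀ j, ψ j ⬝ᵥ v = 0) → v = 0)
    {ρ : ℕ} (C : Fin ρ → A → Rg d) (hC : ∀ j, bdM st en δ *ᵥ C j = 0) (g : Rg d) (hg : g ≠ 0)
    (ω : (Fin ρ → A) → Rg d) (hω : ω ≠ 0) (hgω : ∀ K, pl_Alg C K = g * ω K) :
    ∃ γ : Fin ρ → ι, Function.Injective γ ∧ ∀ q : Rg d,
      (∀ I, ∑ K : Fin ρ → A, (∏ i, J (I i) (K i)) * mu B (ω K) = q * ω I) →
        ∃ m : ℕ, (c : ℂ) ^ m * ∏ i, lam (γ i) = (aug q : ℤ) := by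
  obtain ⟨ev, hi, h1, h2, h3⟩ := hE d a ha
  have hF : (fun K => ev (ω K)) ≠ 0 := fun h =>
    hω (funext fun K => hi (by simpa using congrFun h K))
  obtain ⟨m, H, hH, K0, hK0⟩ := lead_Alg _ hF
  have hX : (X : PowerSeries ℝ) ^ m ≠ 0 := pow_ne_zero _ X_ne_zero
  obtain ⟨γ, hγ, hγ'⟩ := hT A ι ρ (cyc_Alg st en ℓ) ψ
    (fun K => ((constantCoeff (H K) : ℝ) : ℂ)) (fun v hv => hs v hv.1 hv.2)
    (fun h => hK0 (by simpa using congrFun h K0))
    (by
      intro K i
      refine slice_Alg st en δ ℓ w a hw ev h1 h2 (fun x => H (Function.update K i x)) fun p => ?_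
      have h4 := pl_lin_Alg C (fun x => bdM st en δ p x) (fun j => congrFun (hC j) p) K i
      simp only [hgω, mul_left_comm _ g, ← Finset.mul_sum] at h4
      have h5 := congrArg ev ((mul_eq_zero.1 h4).resolve_left hg)
      simp only [map_sum, map_mul, hH, mul_left_comm _ (X ^ m : PowerSeries ℝ), ← Finset.mul_sum,
        map_zero] at h5
      exact (mul_eq_zero.1 h5).resolve_left hX)
    (by
      intro K i j hij
      have h4 := pl_swap_Alg C K hij
      rw [hgω, hgω, ← mul_neg] at h4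
      have h5 := congrArg ev (mul_left_cancel₀ hg h4)
      rw [map_neg, hH, hH, ← mul_neg] at h5
      have h6 := mul_left_cancel₀ hX h5
      simp only [h6, map_neg, Complex.ofReal_neg])
  refine ⟨γ, hγ, fun q hq => ⟨m, ?_⟩⟩
  have hc0 : (c : ℂ) ^ m ≠ 0 := pow_ne_zero _ (by exact_mod_cast (by linarith : c ≠ 0))
  have h7 := hγ' (M.map Int.cast) lam (((aug q : ℤ) : ℂ) / (c : ℂ) ^ m)
    (fun j v hv => hψ j v hv.1) (by
      intro I
      have h4 := congrArg ev (hq I)
      have h5 : ∀ K, ev ((∏ i, J (I i) (K i)) * mu B (ω K))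
          = X ^ m * (ev (∏ i, J (I i) (K i)) * (PowerSeries.C c ^ m * rescale c (H K))) := by
        intro K
        rw [map_mul, h3 B c hB, hH, map_mul, map_pow, rescale_X, mul_pow]
        ring
      rw [map_sum, Finset.sum_congr rfl fun K _ => h5 K, ← Finset.mul_sum, map_mul, hH,
        mul_left_comm] at h4
      have h6 := congrArg constantCoeff (mul_left_cancel₀ hX h4)
      simp only [map_sum, map_mul, h2, map_pow, constantCoeff_C, cc_rescale_Alg, map_prod, hJ,
        mul_left_comm _ (c ^ m), ← Finset.mul_sum] at h6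
      have h8 := congrArg (fun r : ℝ => (r : ℂ)) h6
      simp only [Matrix.map_apply]
      rw [div_mul_eq_mul_div, eq_div_iff hc0, mul_comm]
      push_cast at h8
      exact h8)
  rw [← h7]
  field_simp

theorem alg_stmt (hP : PrimStmt) (hE : EvStmt) (hT : TensStmt) (hC : CramerStmt)
    (hU : UnitStmt) : AlgStmt := by
  intro A ι _ _ _ d st en δ ℓ w a B c M J ψ lam N ha hw hB hc hBa hJ hψ hs hl1 hl2 hl3 hl4 hN hEN
    hN0 z hz
  classical
  have hbd : ∀ {ρ : ℕ} (C : Fin ρ → A → Rg d), (∀ j, bdM st en δ *ᵥ C j = 0) →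
      ∀ K, pl_Alg C K ≠ 0 → ρ ≤ Fintype.card ι := by
    intro ρ C hC' K hK
    obtain ⟨γ, hγ, -⟩ := key_Alg hE hT st en δ ℓ w a B c M J ψ lam ha hw hc hBa hJ hψ hs C hC' 1
      one_ne_zero (pl_Alg C) (fun h => hK (congrFun h K)) (fun K => (one_mul _).symm)
    simpa using Fintype.card_le_of_injective γ hγ
  let P : ℕ → Prop := fun ρ => ∃ C : Fin ρ → A → Rg d, (∀ j, C j ∈ N) ∧ ∃ K, pl_Alg C K ≠ 0
  have hPb : ∀ ρ, P ρ → ρ ≤ Fintype.card ι := fun ρ ⟨C, h1, K, hK⟩ =>
    hbd C (fun j => hN _ (h1 j)) K hK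
  have hP1 : P 1 := by
    obtain ⟨v, hv, hv0⟩ := Submodule.exists_mem_ne_zero_of_ne_bot hN0
    obtain ⟨x, hx⟩ := Function.ne_iff.1 hv0
    refine ⟨fun _ => v, fun _ => hv, fun _ => x, ?_⟩
    unfold pl_Alg
    rw [det_unique]
    exact hx
  have h1 : 1 ≤ Nat.findGreatest P (Fintype.card ι) := Nat.le_findGreatest (hPb 1 hP1) hP1
  have h2 : P (Nat.findGreatest P (Fintype.card ι)) := Nat.findGreatest_spec (hPb 1 hP1) hP1
  have h3 : ¬P (Nat.findGreatest P (Fintype.card ι) + 1) := fun h =>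
    Nat.findGreatest_is_greatest (Nat.lt_succ_self _) (hPb _ h) h
  generalize Nat.findGreatest P (Fintype.card ι) = ρ at h1 h2 h3
  obtain ⟨C, hCN, K0, hK0⟩ := h2
  have h4 : ∀ y ∈ N, ∃ G : Fin ρ → Rg d, pl_Alg C K0 • y = ∑ j, G j • C j := by
    intro y hy
    refine hC (Rg d) A ρ C y K0 fun K' => ?_
    by_contra hK'
    refine h3 ⟨Fin.snoc C y, fun j => ?_, K', hK'⟩
    refine Fin.lastCases ?_ (fun j => ?_) j
    · simpa using hy
    · simpa using hCN j
  choose G hG using fun j => h4 _ (hEN _ (hCN j))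
  obtain ⟨g, ω, hgω, hprim⟩ := hP d (Fin ρ → A) (pl_Alg C) (fun h => hK0 (congrFun h K0))
  have hg : g ≠ 0 := fun h => hK0 (by rw [hgω, h, zero_mul])
  have hω : ω ≠ 0 := fun h => hK0 (by rw [hgω, h, Pi.zero_apply, mul_zero])
  have hmg : mu B g ≠ 0 := fun h => hg (mu_injective hB (by rw [h, map_zero]))
  have h5 : ∀ I, pl_Alg C K0 ^ ρ * mu B g
      * ∑ K : Fin ρ → A, (∏ i, J (I i) (K i)) * mu B (ω K)
        = g * (Matrix.of G).det * ω I := by
    intro I
    have h6 := pl_comb_Alg C (fun j => J *ᵥ fun x => mu B (C j x)) _ G hG I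
    rw [pl_mulVec_Alg (fun j x => mu B (C j x)) J I] at h6
    simp only [pl_map_Alg, hgω I] at h6
    rw [mul_assoc, Finset.mul_sum]
    rw [show g * (Matrix.of G).det * ω I = g * ω I * (Matrix.of G).det by ring, ← h6]
    congr 1
    refine Finset.sum_congr rfl fun K _ => ?_
    rw [hgω K, map_mul]
    ring
  obtain ⟨q, hq⟩ := hprim (fun I => ∑ K : Fin ρ → A, (∏ i, J (I i) (K i)) * mu B (ω K)) (by
    intro I K
    refine mul_left_cancel₀ (mul_ne_zero (pow_ne_zero ρ hK0) hmg) ?_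
    rw [← mul_assoc, ← mul_assoc, h5, h5]
    ring)
  obtain ⟨γ, hγ, hγ'⟩ := key_Alg hE hT st en δ ℓ w a B c M J ψ lam ha hw hc hBa hJ hψ hs C
    (fun j => hN _ (hCN j)) g hg ω hω hgω
  obtain ⟨m, hm⟩ := hγ' q hq
  have hρ : ρ = Fintype.card ι :=
    (hU ι ρ m c lam γ (aug q) hc hl1 hl2 hl3 hl4 hγ hm).resolve_left (by omega)
  obtain ⟨G', hG'⟩ := hC (Rg d) A ρ C z K0 fun K' => by
    by_contra hK'
    have := hbd (Fin.snoc C z : Fin (ρ + 1) → A → Rg d) (fun j => by
      refine Fin.lastCases ?_ (fun j => ?_) j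
      · simpa using hz
      · simpa using hN _ (hCN j)) K' hK'
    omega
  refine ⟨_, hK0, ?_⟩
  unfold pl_Alg
  rw [hG']
  exact N.sum_mem fun j _ => N.smul_mem _ (hCN j)

end Pool.Agent.MP_4168de_an.G
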