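import Pool.Agent.MP_4168de_an.G.Alg0

namespace Pool.Agent.MP_4168de_an.G

theorem cramer_Cramer : CramerStmt := by
  intro R A _ ρ C z K h
  let D : Fin (ρ + 1) → R := fun j =>
    (Matrix.of fun i l : Fin ρ => (Fin.snoc C z : Fin (ρ + 1) → A → R) (j.succAbove l) (K i)).det
  refine ⟨fun j => -((-1) ^ (ρ + j : ℕ) * D j.castSucc), funext fun x => ?_⟩
  have h1 := h (Fin.snoc K x)
  rw [Matrix.det_succ_row _ (Fin.last ρ), Fin.sum_univ_castSucc] at h1
  have e : ∀ j : Fin (ρ + 1), ((Matrix.of fun i j => (Fin.snoc C z : Fin (ρ + 1) → A → R) j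
      ((Fin.snoc K x : Fin (ρ + 1) → A) i)).submatrix (Fin.last ρ).succAbove j.succAbove).det =
      D j := fun j => by
    congr 1
    ext i l
    simp
  have e2 : D (Fin.last ρ) = (Matrix.of fun i j => C j (K i)).det := by
    simp [D]
  simp only [e, e2, Matrix.of_apply, Fin.snoc_last, Fin.snoc_castSucc, Fin.val_last,
    Fin.val_castSucc, ← two_mul, pow_mul, neg_one_sq, one_pow, one_mul] at h1
  simp only [Finset.sum_apply, Pi.smul_apply, smul_eq_mul, neg_mul, Finset.sum_neg_distrib]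
  rw [eq_neg_iff_add_eq_zero, add_comm, mul_comm, ← h1]
  congr 1
  exact Finset.sum_congr rfl fun j _ => by ring

theorem unit_Cramer : UnitStmt := by
  classical
  intro ι _ ρ m c lam g q hc h1 h2 h3 h4 hg h5
  have c0 : 0 < c := zero_lt_one.trans hc
  have l0 : ∀ j, 0 < ‖lam j‖ := fun j => (norm_nonneg _).lt_of_ne' fun h => by
    rw [Finset.prod_eq_zero (Finset.mem_univ j) h, mul_zero] at h2
    exact zero_ne_one h2
  have i1 : IsIntegral ℤ ((c : ℂ)⁻¹) := by
    rw [← Complex.ofReal_inv]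
    exact h4.map (Complex.ofRealAm.restrictScalars ℤ)
  have i2 : IsIntegral ℤ ((q : ℂ)⁻¹) := by
    rw [← h5, mul_inv, ← inv_pow, ← Finset.prod_inv_distrib]
    exact (i1.pow m).mul (IsIntegral.prod _ fun i _ => h3 _)
  have q0 : (q : ℂ) ≠ 0 := by
    rw [← h5]
    exact mul_ne_zero (pow_ne_zero _ (Complex.ofReal_ne_zero.2 c0.ne'))
      (Finset.prod_ne_zero_iff.2 fun i _ => norm_pos_iff.1 (l0 _))
  have i3 : IsIntegral ℤ ((q : ℚ)⁻¹) := by
    rw [← isIntegral_algebraMap_iff (B := ℂ) (algebraMap ℚ ℂ).injective]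
    simpa using i2
  obtain ⟨y, hy⟩ := IsIntegrallyClosed.isIntegral_iff.1 i3
  have q1 : q * y = 1 := by
    have : (q : ℚ) ≠ 0 := by exact_mod_cast (by exact_mod_cast q0 : q ≠ 0)
    have h6 : (q : ℚ) * y = 1 := by
      rw [show (y : ℚ) = (q : ℚ)⁻¹ from hy, mul_inv_cancel₀ this]
    exact_mod_cast h6
  have q2 : ‖(q : ℂ)‖ = 1 := by
    rcases Int.eq_one_or_neg_one_of_mul_eq_one q1 with rfl | rfl <;> simp
  rw [← h5, norm_mul, norm_pow, norm_prod, Complex.norm_real, Real.norm_of_nonneg c0.le] at q2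
  have lt1 : ∀ s : Finset ι, s.Nonempty → ∏ j ∈ s, ‖lam j‖ < 1 := fun s hs => by
    have := Finset.prod_lt_prod_of_nonempty (g := fun _ => (1 : ℝ)) (fun j _ => l0 j)
      (fun j _ => h1 j) hs
    rwa [Finset.prod_const_one] at this
  have e : ∏ i, ‖lam (g i)‖ = ∏ j ∈ Finset.univ.map ⟨g, hg⟩, ‖lam j‖ :=
    (Finset.prod_map Finset.univ ⟨g, hg⟩ fun j => ‖lam j‖).symm
  have hcard : (Finset.univ.map ⟨g, hg⟩).card = ρ := by simp
  rw [e] at q2
  rw [← Finset.prod_mul_prod_compl (Finset.univ.map ⟨g, hg⟩)] at h2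
  generalize Finset.univ.map ⟨g, hg⟩ = s at q2 h2 hcard
  rcases m with _ | m
  · left
    by_contra h
    have := lt1 s (Finset.card_pos.1 (by omega))
    rw [pow_zero, one_mul] at q2
    exact this.ne q2
  · right
    have h6 : c ^ m = ∏ j ∈ sᶜ, ‖lam j‖ := by
      refine mul_left_cancel₀ (mul_pos c0 (Finset.prod_pos (s := s) fun j _ => l0 j)).ne' ?_
      linear_combination q2 - h2
    have h7 : sᶜ = ∅ := by
      by_contra h
      have := lt1 _ (Finset.nonempty_iff_ne_empty.2 h)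
      linarith [one_le_pow₀ (n := m) hc.le]
    rw [← hcard, (Finset.compl_eq_empty_iff s).1 h7, Finset.card_univ]

theorem cramer_stmt : CramerStmt ∧ UnitStmt := ⟨cramer_Cramer, unit_Cramer⟩

end Pool.Agent.MP_4168de_an.G
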