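import Pool.Agent.MP_4168de_an.G.Alg0

/-! The exponential evaluation of the group ring into power series. -/

namespace Pool.Agent.MP_4168de_an.G

variable {d : ℕ}

/-- The exponential series of a lattice vector. -/
noncomputable def ex_Ev (a : Lat d →+ ℝ) : Multiplicative (Lat d) →* PowerSeries ℝ where
  toFun v := PowerSeries.rescale (a v.toAdd) (PowerSeries.exp ℝ)
  map_one' := by simp
  map_mul' v w := by rw [PowerSeries.exp_mul_exp_eq_exp_add, toAdd_mul, map_add]

/-- The evaluation. -/
noncomputable def ev_Ev (a : Lat d →+ ℝ) : Rg d →+* PowerSeries ℝ :=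
  (AddMonoidAlgebra.lift ℤ (PowerSeries ℝ) (Lat d) (ex_Ev a)).toRingHom

lemma single_Ev (a : Lat d →+ ℝ) (v : Lat d) (n : ℤ) :
    ev_Ev a (AddMonoidAlgebra.single v n) =
      (n : PowerSeries ℝ) * PowerSeries.rescale (a v) (PowerSeries.exp ℝ) := by
  rw [← zsmul_eq_mul]
  exact AddMonoidAlgebra.lift_single (ex_Ev a) v n

lemma coeff_Ev (a : Lat d →+ ℝ) (P : Rg d) (k : ℕ) :
    (k.factorial : ℝ) * PowerSeries.coeff k (ev_Ev a P) =
      P.coeff.sum fun v n => (n : ℝ) * a v ^ k := by
  induction P using AddMonoidAlgebra.induction_linear with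
  | zero => simp
  | add P Q hP hQ =>
    rw [map_add, map_add, mul_add, hP, hQ, AddMonoidAlgebra.coeff_add,
      Finsupp.sum_add_index' (by simp) (by intros; push_cast; ring)]
  | single v n =>
    have h : (k.factorial : ℝ) ≠ 0 := Nat.cast_ne_zero.2 k.factorial_ne_zero
    rw [single_Ev, AddMonoidAlgebra.coeff_single, Finsupp.sum_single_index (by simp),
      ← zsmul_eq_mul, map_zsmul, PowerSeries.coeff_rescale, PowerSeries.coeff_exp]
    simp only [zsmul_eq_mul, one_div, map_inv₀, map_natCast]
    field_simp

theorem ev_stmt : EvStmt := by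
  intro d a ha
  refine ⟨ev_Ev a, (injective_iff_map_eq_zero _).2 fun P hP => ?_, fun v => ?_, fun P => ?_,
    fun B c hB P => ?_⟩
  · have li := (linearIndependent_monoidHom (Multiplicative ℕ) ℝ).comp
      (fun v : Lat d => powersHom ℝ (a v)) fun v w h => ha ((powersHom ℝ).injective h)
    have h0 := linearIndependent_iff'.1 li P.coeff.support (fun v => (P.coeff v : ℝ)) (by
      funext k
      have := coeff_Ev a P k.toAdd
      rw [hP, map_zero, mul_zero] at this
      simpa [Finsupp.sum] using this.symm)
    ext v
    by_contra hv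
    exact hv (by exact_mod_cast h0 v (Finsupp.mem_support_iff.2 hv))
  · rw [mono, single_Ev, Int.cast_one, one_mul]
  · induction P using AddMonoidAlgebra.induction_linear with
    | zero => simp
    | add P Q hP hQ => simp only [map_add, hP, hQ, Int.cast_add]
    | single v n =>
      rw [single_Ev, aug_single, map_mul, map_intCast, ← PowerSeries.coeff_zero_eq_constantCoeff_apply,
        PowerSeries.coeff_rescale]
      simp
  · induction P using AddMonoidAlgebra.induction_linear with
    | zero => simp
    | add P Q hP hQ => simp only [map_add, hP, hQ]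
    | single v n =>
      rw [mu_single, single_Ev, single_Ev, map_mul, map_intCast, PowerSeries.rescale_rescale, hB,
        mul_comm c]

end Pool.Agent.MP_4168de_an.G
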