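import Pool.Agent.MP_4168de_an.G.Stmt

/-! Every cycle is null. -/

namespace Pool.Agent.MP_4168de_an.G

open Set Filter Topology Shift Matrix

theorem full_stmt (hA : AlgStmt) (hN : NullStmt) (hZ : NonzeroStmt) : FullStmt := by
  intro A _ _ _ _ D ℓ c σ d e C hdet Q z hz
  have hinj : ∀ v : A → ℂ, (∀ p, ∑ a, (inc C.st C.en p a : ℂ) * v a = 0) →
      (∀ i, ∑ a, (C.δ a i : ℂ) * v a = 0) → v = 0 := fun v h1 h2 => by
    obtain ⟨N, hN⟩ := C.nil C.Mx C.hasMat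
    have h3 : IsUnit ((Int.castRingHom ℂ).mapMatrix (C.Mx ^ N)) :=
      (((Matrix.isUnit_iff_isUnit_det _).2 hdet).pow N).map _
    refine Matrix.mulVec_injective_of_isUnit h3 ?_
    rw [Matrix.mulVec_zero]
    exact funext (hN v h1 h2)
  obtain ⟨-, -, -, -, n0, n1, n2, n3, n4⟩ := hN A D ℓ c σ d e C
  obtain ⟨z₀, a1, a2, a3⟩ := hZ A D ℓ c σ d e C Q
  let N : Submodule (Rg d) (A → Rg d) :=
    { carrier := {z | C.bd z = 0 ∧ C.Null z}
      zero_mem' := ⟨map_zero _, n0⟩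
      add_mem' := fun a b => ⟨by rw [map_add, a.1, b.1, add_zero], n1 _ _ a.2 b.2⟩
      smul_mem' := fun P z a => ⟨by rw [map_smul, a.1, smul_zero], n2 _ _ a.2⟩ }
  let cz : Lat d → Fin d → ℂ := fun v i => v i
  let ψ : Fin e → A → ℂ := fun j a => C.L.φ j ⬝ᵥ cz (C.δ a)
  have tel : ∀ (h v : A → ℂ), (∀ p, ∑ x, (inc C.st C.en p x : ℂ) * v x = 0) →
      ∑ x, (h (C.en x) - h (C.st x)) * v x = 0 := fun h v hv => by
    have : ∀ x, (h (C.en x) - h (C.st x)) * v x = ∑ p, h p * ((inc C.st C.en p x : ℂ) * v x) :=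
      fun x => by
        simp [inc, mul_sub, sub_mul, Finset.sum_sub_distrib]
    simp only [this]
    rw [Finset.sum_comm]
    simp only [← Finset.mul_sum, hv, mul_zero, Finset.sum_const_zero]
  have hδ : ∀ a, ∑ b, C.Mx b a • C.δ b = C.B *ᵥ C.δ a + C.κ (C.en a) - C.κ (C.st a) := fun a => by
    obtain ⟨x, rfl⟩ := C.occ a
    rw [← C.hκ, ← C.hasMat.isum_eq]
    simp [DSub.star, bs]
  have hψ : ∀ j a, ∑ b, ψ j b * (C.Mx b a : ℂ) = C.L.lam j * ψ j a +
      (C.L.φ j ⬝ᵥ cz (C.κ (C.en a)) - C.L.φ j ⬝ᵥ cz (C.κ (C.st a))) := fun j a => by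
    have h1 : cz (∑ b, C.Mx b a • C.δ b) = ∑ b, (C.Mx b a : ℂ) • cz (C.δ b) := by
      ext i
      simp [cz]
    have h2 : cz (C.B *ᵥ C.δ a + C.κ (C.en a) - C.κ (C.st a)) =
        C.B.map (Int.cast : ℤ → ℂ) *ᵥ cz (C.δ a) + cz (C.κ (C.en a)) - cz (C.κ (C.st a)) := by
      ext i
      simp [cz, Matrix.mulVec, dotProduct]
    have h3 := congrArg (fun v => C.L.φ j ⬝ᵥ cz v) (hδ a)
    simp only [h1, h2, dotProduct_sum, dotProduct_smul, dotProduct_sub, dotProduct_add,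
      Matrix.dotProduct_mulVec, C.L.φB, smul_dotProduct, smul_eq_mul] at h3
    simp only [ψ, mul_comm _ (C.Mx _ a : ℂ), h3]
    ring
  obtain ⟨P, hP, hz'⟩ := hA A (Fin e) d C.st C.en C.δ ℓ C.w C.a C.Bz c C.Mx C.J ψ C.L.lam N
    C.a_inj C.hw C.Bz_bij.1 C.one_lt C.a_Bz C.aug_J (fun j v hv => by
      rw [Matrix.dotProduct_mulVec]
      have h1 := tel (fun p => C.L.φ j ⬝ᵥ cz (C.κ p)) v hv
      simp only [dotProduct, Matrix.vecMul, Matrix.map_apply] at hψ h1 ⊢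
      simp only [hψ, add_mul, Finset.sum_add_distrib, h1, add_zero, Finset.mul_sum, mul_assoc])
    (fun v hv h1 h2 => by
      refine hinj v hv (congrFun (C.L.sep (fun i => ∑ a, (C.δ a i : ℂ) * v a) ?_ fun j => ?_))
      · have h3 := tel (fun p => (C.w p : ℂ)) v hv
        have h4 : ∀ a, ∑ i, (C.u i : ℂ) * C.δ a i = ℓ a - (C.w (C.en a) - C.w (C.st a)) := fun a => by
          have h5 := C.hw a
          simp only [dotProduct, toR] at h5
          have h6 : ∑ i, C.u i * C.δ a i = ℓ a - (C.w (C.en a) - C.w (C.st a)) := by linarith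
          exact_mod_cast h6
        simp only [dotProduct, Finset.mul_sum]
        rw [Finset.sum_comm]
        simp only [← mul_assoc, ← Finset.sum_mul, h4, sub_mul (ℓ _ : ℂ), Finset.sum_sub_distrib,
          h1, h3, sub_zero]
      · rw [← h2 j]
        simp only [dotProduct, Finset.mul_sum, ψ, cz, Finset.sum_mul, mul_assoc]
        exact Finset.sum_comm)
    C.L.lam_lt C.L.prod_lam C.L.lam_unit C.L.c_unit (fun z a => a.1)
    (fun z a => ⟨C.bd_E a.1, n3 _ a.2⟩) ((Submodule.ne_bot_iff _).2 ⟨z₀, ⟨a2, a3⟩, a1⟩) z hz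
  exact n4 P z hP hz'.2

end Pool.Agent.MP_4168de_an.G
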