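import Pool.Agent.MP_4168de_an.G.Stmt

/-! The theorem from the statements. -/

namespace Pool.Agent.MP_4168de_an.G

open Set Filter Topology MeasureTheory

lemma exists_dsub' {A : Type} {ℓ : A → ℝ} {c : ℝ} [TopologicalSpace A] [DiscreteTopology A]
    [Finite A] (σ : RSub ℓ c) (D : Shift A) {x₀ : ℤ → A} (hD : D.X = orb x₀) {m : ℤ}
    (h : σ.S x₀ = sh m x₀) : ∃ τ : DSub D ℓ c, τ.toRSub = σ := by
  refine ⟨⟨σ, fun x hx => ?_, fun x hx => ?_⟩, rfl⟩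
  · rw [hD] at *
    refine map_mem_closure σ.continuous_S hx ?_
    rintro _ ⟨n, rfl⟩
    exact ⟨_, by rw [σ.S_sh, h, sh_sh]⟩
  · obtain ⟨ρ, hρ⟩ := (finite_range fun a : A => σ.r fun _ => a).bddAbove
    have h1 : IsClosed (⋃ n ∈ Icc 0 ρ, sh n '' (σ.S '' D.X)) :=
      (finite_Icc _ _).isClosed_biUnion fun n _ =>
        ((D.closed.isCompact.image σ.continuous_S).image (continuous_sh n)).isClosed
    have h2 : orb x₀ ⊆ ⋃ n ∈ Icc 0 ρ, sh n '' (σ.S '' D.X) := by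
      refine closure_minimal ?_ h1
      rintro _ ⟨j, rfl⟩
      obtain ⟨n, a1, a2⟩ := exists_idx_int (fun n => σ.cc_strictMono x₀ (lt_add_one n)) (j - m)
      have a3 : σ.r (sh n x₀) ≤ ρ := by
        rw [σ.r_loc (sh n x₀) (fun _ => sh n x₀ 0) rfl]
        exact hρ ⟨_, rfl⟩
      rw [σ.cc_succ] at a2
      refine mem_biUnion (x := j - m - σ.cc x₀ n) ⟨by omega, by omega⟩
        ⟨_, ⟨sh n x₀, hD ▸ sh_mem_orb x₀ n, rfl⟩, ?_⟩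
      rw [σ.S_sh, h, sh_sh, sh_sh]
      congr 1
      ring
    obtain ⟨n, -, _, ⟨y, hy, rfl⟩, rfl⟩ := mem_iUnion₂.1 (h2 (hD ▸ hx))
    exact ⟨y, hy, n, rfl⟩

theorem glue (hP : PisotStmt) (hL : LinStmt) (hC : CechStmt) (hM : MatStmt) (hG : GraphStmt)
    (hV : CoverStmt) (hB : BoxStmt) (hO : OneStmt) (hF : FullStmt) (hS : SpecStmt)
    {A : Type} [Fintype A] [DecidableEq A] (σ : A → List A) (M : Matrix A A ℤ)
    (hσM : ∀ i j, M i j = (σ j).count i) (hprim : M.IsPrimitive) (hdet : IsUnit M.det)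
    {c : ℝ} {d : ℕ} (hc : IsPisot c d) {ℓ : A → ℝ}
    (hℓ : ∀ i, 0 < ℓ i) (heig : ∀ a, ((σ a).map ℓ).sum = c * ℓ a) {T₀ : Patch A}
    (htil : IsTiling ℓ T₀) (hfix : ∃ k, 0 < k ∧ (inflate σ ℓ c)^[k] T₀ = T₀)
    (hmin : ∀ T ∈ hull T₀, T₀ ∈ hull T) (hrank : cechRank (hull T₀) = d)
    (μ : Measure (Patch A)) [IsProbabilityMeasure μ] (hμ : μ (hull T₀)ᶜ = 0)
    (hinv : ∀ t, MeasurePreserving (translate t) μ μ) : PurePoint μ := by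
  let : TopologicalSpace A := ⊥
  have : DiscreteTopology A := ⟨rfl⟩
  have hc1 := hc.one_lt
  obtain ⟨x₀, t₀, rfl⟩ := htil.exists_θ
  have : Nonempty A := ⟨x₀ 0⟩
  obtain ⟨l₀, l₁, h0, h1, h2⟩ := exists_len_bounds hℓ
  have hσ : ∀ a, σ a ≠ [] := fun a h => by
    have := heig a
    rw [h] at this
    exact (mul_pos (by linarith) (hℓ a)).ne this
  obtain ⟨k, hk, hfix⟩ := hfix
  rw [inflate_iterate σ hσ heig] at hfix
  obtain ⟨m, hm, -⟩ := θ_eq hℓ hfix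
  let D : Shift A := ⟨orb x₀, isClosed_closure, orb_inv, ⟨_, sh_mem_orb x₀ 0⟩, orb_min hℓ hmin⟩
  obtain ⟨m1, -, m3⟩ := hM A ℓ c
  have hm1 := m1 σ hσ heig M hσM
  have occ : ∀ a, ∃ x : D.X, x.1 0 = a := fun a => by
    obtain ⟨n, hn⟩ := m3 _ M k x₀ m hm1 hprim hk hm a
    exact ⟨⟨_, sh_mem_orb x₀ n⟩, by simpa using hn⟩
  obtain ⟨τ, hτ⟩ := exists_dsub' _ D rfl hm
  have hm2 : HasMat τ.toRSub (M ^ k) := hτ ▸ (hM A ℓ c).2.1 _ M k hm1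
  have hck : 1 < c ^ k := one_lt_pow₀ hc1 hk.ne'
  obtain ⟨j, hj⟩ := pow_unbounded_of_one_lt (l₁ / l₀) hck
  have hl : 0 < l₁ := (hℓ _).trans_le (h2 (x₀ 0))
  have hj1 : 1 < (c ^ k) ^ j :=
    lt_of_le_of_lt ((one_le_div h0).2 ((h1 _).trans (h2 (x₀ 0)))) hj
  have hj0 : 0 < j := Nat.pos_of_ne_zero fun h => by simp [h] at hj1
  rw [div_lt_iff₀ h0] at hj
  have hr : ∀ x, 2 ≤ (τ.pow j).r x := fun x => by
    have a1 := (τ.pow j).r_ge (by linarith) h1 h2 x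
    have a2 : (1 : ℝ) < (τ.pow j).r x := lt_of_mul_lt_mul_left (by linarith) hl.le
    have a3 : 1 < (τ.pow j).r x := by exact_mod_cast a2
    omega
  have hm3 : HasMat (τ.pow j).toRSub ((M ^ k) ^ j) := (hM A ℓ _).2.1 _ _ j hm2
  have hΩ := hull_eq hℓ h2 x₀ t₀
  obtain ⟨d', hd', ⟨G⟩⟩ := hG A D ℓ _ (τ.pow j) _ d hℓ hj1 occ hr hm3
    (by rw [Matrix.det_pow, Matrix.det_pow]; exact (hdet.pow k).pow j)
    (hC A D ℓ l₁ _ d hℓ h2 hΩ hrank)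
  obtain ⟨e, ⟨L⟩⟩ := hL d' d G.B G.u _ (hP _ _ j (hP c d k hc hk) hj0) hd' G.detB G.u_ne G.uB
  obtain ⟨C⟩ := hV A D ℓ _ _ _ d' e G L hℓ hj1 occ hr hm3
  obtain ⟨Q⟩ := hB A D ℓ _ _ d' e C
  have hu : IsUnit C.Mx.det := by
    rw [C.hasMat.unique hm3, Matrix.det_pow, Matrix.det_pow]
    exact (hdet.pow k).pow j
  exact hS A D ℓ _ _ d' e C Q (hO A D ℓ _ _ d' e C Q (hF A D ℓ _ _ d' e C hu Q)) l₁ _ h2 hΩ μ hμ
    hinv

end Pool.Agent.MP_4168de_an.G
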