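import Pool.Agent.MP_4168de_an.G.Stmt

/-! Decreasing porous sets have vanishing relative measure. -/

namespace Pool.Agent.MP_4168de_an.G

open Set Filter Topology MeasureTheory

/-- A set which is porous along a sequence of scales is null. -/
theorem null_Porous (c L ε : ℝ) (S : Set ℝ) (hc : 1 < c) (hε : 0 < ε) (hL : 0 ≤ L)
    (h : ∀ (k : ℕ) (x : ℝ), ∃ y, |y - x| ≤ L / c ^ k ∧ ∀ α, |α - y| < ε / c ^ k → α ∉ S) :
    volume S = 0 := by
  have hd := Besicovitch.ae_tendsto_measure_inter_div (volume : Measure ℝ) S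
  have hF : ∀ᵐ x ∂(volume.restrict S : Measure ℝ), False := by
    filter_upwards [hd] with x hx
    have hck : ∀ k : ℕ, 0 < c ^ k := fun k => pow_pos (by linarith) k
    have hr : Tendsto (fun k : ℕ => (L + ε) / c ^ k) atTop (𝓝[>] 0) := by
      refine tendsto_nhdsWithin_iff.2 ⟨?_, Eventually.of_forall fun k => ?_⟩
      · exact Tendsto.div_atTop tendsto_const_nhds (tendsto_pow_atTop_atTop_of_one_lt hc)
      · exact div_pos (by linarith) (hck k)
    have h1 := hx.comp hr
    have hq : ∀ k : ℕ, volume (S ∩ Metric.closedBall x ((L + ε) / c ^ k)) /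
        volume (Metric.closedBall x ((L + ε) / c ^ k)) ≤ ENNReal.ofReal (L / (L + ε)) := by
      intro k
      obtain ⟨y, hy, hy'⟩ := h k x
      have hk := hck k
      have hsub : Metric.ball y (ε / c ^ k) ⊆ Metric.closedBall x ((L + ε) / c ^ k) := by
        intro α hα
        rw [Metric.mem_ball, Real.dist_eq] at hα
        rw [Metric.mem_closedBall, Real.dist_eq, add_div]
        have := abs_sub_le α y x
        linarith
      have hs2 : S ∩ Metric.closedBall x ((L + ε) / c ^ k) ⊆
          Metric.closedBall x ((L + ε) / c ^ k) \ Metric.ball y (ε / c ^ k) := by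
        rintro α ⟨h1, h2⟩
        refine ⟨h2, fun h3 => hy' α ?_ h1⟩
        rwa [Metric.mem_ball, Real.dist_eq] at h3
      have hm := measure_mono (μ := (volume : Measure ℝ)) hs2
      rw [measure_diff hsub Metric.isOpen_ball.measurableSet.nullMeasurableSet
        (by rw [Real.volume_ball]; exact ENNReal.ofReal_ne_top), Real.volume_ball,
        Real.volume_closedBall, ← ENNReal.ofReal_sub _ (by positivity)] at hm
      rw [Real.volume_closedBall]
      have hp : 0 < 2 * ((L + ε) / c ^ k) := by positivity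
      refine (ENNReal.div_le_div_right hm _).trans (le_of_eq ?_)
      rw [← ENNReal.ofReal_div_of_pos hp]
      congr 1
      have : L + ε ≠ 0 := by positivity
      field_simp
      ring
    have h2 := le_of_tendsto' h1 hq
    have h3 : ENNReal.ofReal (L / (L + ε)) < 1 := by
      rw [ENNReal.ofReal_lt_one, div_lt_one (by positivity)]
      linarith
    exact absurd h2 (not_le.2 h3)
  have h0 : (volume.restrict S : Measure ℝ) = 0 := by
    rw [← ae_eq_bot]
    exact eventually_false_iff_eq_bot.1 hF
  exact Measure.restrict_eq_zero.1 h0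

theorem porous_stmt : PorousStmt := by
  intro c L ε Z hc hε hZ hdec hpor t₁ t₂
  have hck : ∀ k : ℕ, 0 < c ^ k := fun k => pow_pos (by linarith) k
  have hL : 0 ≤ L := by
    obtain ⟨t', h, -⟩ := hpor 0 0
    exact (abs_nonneg _).trans h
  set W : ℕ → Set ℝ := fun k => Icc t₁ t₂ ∩ (fun α => c ^ k * α) ⁻¹' Z k with hW
  have hWm : ∀ k, MeasurableSet (W k) := fun k =>
    measurableSet_Icc.inter ((measurable_const_mul _) (hZ k))
  have hWa : Antitone W := by
    refine antitone_nat_of_succ_le fun k α hα => ⟨hα.1, hdec k _ ?_⟩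
    have := hα.2
    simp only [mem_preimage] at this
    rwa [pow_succ', mul_assoc] at this
  have hfin : ∀ k, volume (W k) ≠ ⊤ := fun k =>
    ne_top_of_le_ne_top (by rw [Real.volume_Icc]; exact ENNReal.ofReal_ne_top)
      (measure_mono (μ := (volume : Measure ℝ)) inter_subset_left)
  have hlim := tendsto_measure_iInter_atTop (μ := (volume : Measure ℝ))
    (fun k => (hWm k).nullMeasurableSet) hWa ⟨0, hfin 0⟩
  have hnull : volume (⋂ k, W k) = 0 := by
    refine null_Porous c L ε _ hc hε hL fun k x => ?_
    obtain ⟨t', h1, h2⟩ := hpor k (c ^ k * x)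
    have hk := hck k
    refine ⟨t' / c ^ k, ?_, fun α hα hS => h2 (c ^ k * α) ?_ (mem_iInter.1 hS k).2⟩
    · have : t' / c ^ k - x = (t' - c ^ k * x) / c ^ k := by field_simp
      rw [this, abs_div, abs_of_pos hk]
      exact div_le_div_of_nonneg_right h1 hk.le
    · have : c ^ k * α - t' = c ^ k * (α - t' / c ^ k) := by field_simp
      rw [this, abs_mul, abs_of_pos hk]
      rwa [lt_div_iff₀' hk] at hα
  rw [hnull] at hlim
  have h2 := (ENNReal.tendsto_toReal ENNReal.zero_ne_top).comp hlim
  rw [ENNReal.toReal_zero] at h2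
  refine h2.congr fun k => ?_
  have hk := hck k
  have hpre : W k = (fun α => c ^ k * α) ⁻¹' (Z k ∩ Icc (c ^ k * t₁) (c ^ k * t₂)) := by
    ext α
    simp only [hW, mem_inter_iff, mem_preimage, mem_Icc, mul_le_mul_iff_right₀ hk]
    exact and_comm
  simp only [Function.comp]
  rw [hpre, Real.volume_preimage_mul_left hk.ne', ENNReal.toReal_mul,
    ENNReal.toReal_ofReal (abs_nonneg _), abs_of_pos (inv_pos.2 hk), div_eq_inv_mul]

end Pool.Agent.MP_4168de_an.G
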