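import Pool.Agent.MP_4168de_an.G.Alg0

/-! Primitive families in the group ring of a lattice. -/

namespace Pool.Agent.MP_4168de_an.G

theorem den_Prim {P S ι : Type} [CommRing P] [CommRing S] [Fintype ι] (j : P →+* S)
    (h : ∀ r : S, ∃ m p : P, IsUnit (j m) ∧ j m * r = j p) (ω : ι → S) :
    ∃ (v : Sˣ) (p : ι → P), ∀ i, ω i = v * j (p i) := by
  classical
  choose m p h1 h2 using fun i => h (ω i)
  have hu : IsUnit (j (∏ i, m i)) := by
    rw [map_prod]
    exact IsUnit.prod_univ_iff.2 h1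
  refine ⟨hu.unit⁻¹, fun i => (∏ k ∈ Finset.univ.erase i, m k) * p i, fun i => ?_⟩
  rw [Units.eq_inv_mul_iff_mul_eq, IsUnit.unit_spec, map_mul, ← h2, ← mul_assoc, ← map_mul,
    Finset.prod_erase_mul _ _ (Finset.mem_univ i)]

theorem abs_Prim {P S ι : Type} [CommRing P] [IsDomain P] [NormalizedGCDMonoid P] [CommRing S]
    [Fintype ι] (j : P →+* S) (hj : Function.Injective j)
    (h : ∀ r : S, ∃ m p : P, IsUnit (j m) ∧ j m * r = j p) (ω : ι → S) (hω : ω ≠ 0) :
    ∃ (g : S) (ω' : ι → S), (∀ i, ω i = g * ω' i) ∧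
      ∀ u : ι → S, (∀ i k, u i * ω' k = u k * ω' i) → ∃ q, ∀ i, u i = q * ω' i := by
  obtain ⟨v, p, hp⟩ := den_Prim j h ω
  obtain ⟨k, hk⟩ := Function.ne_iff.1 hω
  obtain ⟨p', h1, h2⟩ := Finset.extract_gcd (s := Finset.univ) p ⟨k, Finset.mem_univ k⟩
  have hk' : p' k ≠ 0 := fun h0 => hk (by
    rw [hp k, h1 k (Finset.mem_univ k), h0, mul_zero, map_zero, mul_zero, Pi.zero_apply])
  refine ⟨v * j (Finset.univ.gcd p), fun i => j (p' i), fun i => ?_, fun u hu => ?_⟩
  · rw [mul_assoc, ← map_mul, ← h1 i (Finset.mem_univ i), hp i]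
  · obtain ⟨v', s, hs⟩ := den_Prim j h u
    have e : ∀ i, s i * p' k = s k * p' i := fun i => by
      refine hj ((Units.mul_right_inj v').1 ?_)
      rw [map_mul, map_mul, ← mul_assoc, ← mul_assoc, ← hs, ← hs]
      exact hu i k
    have hd : p' k ∣ Finset.univ.gcd fun i => s k * p' i :=
      Finset.dvd_gcd fun i _ => ⟨s i, by rw [← e i, mul_comm]⟩
    have hd' := hd.trans (Finset.gcd_mul_left' _ _ _).dvd
    rw [h2, mul_one] at hd'
    obtain ⟨q, hq⟩ := hd'
    refine ⟨v' * j q, fun i => ?_⟩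
    have e' : s i = q * p' i := mul_right_cancel₀ hk' (by rw [e i, hq]; ring)
    rw [hs i, e', map_mul, mul_assoc]

/-- exponents as lattice vectors -/
def emb_Prim (d : ℕ) : (Fin d →₀ ℕ) →+ Lat d where
  toFun n i := n i
  map_zero' := by
    funext i
    simp
  map_add' a b := by
    funext i
    simp

theorem prim_stmt : PrimStmt := by
  intro d ι _ ω hω
  obtain ⟨_⟩ : Nonempty (NormalizedGCDMonoid (MvPolynomial (Fin d) ℤ)) := inferInstance
  have hs : ∀ (n : Fin d →₀ ℕ) (c : ℤ), AddMonoidAlgebra.mapDomainRingHom ℤ (emb_Prim d)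
      (AddMonoidAlgebra.single n c) = AddMonoidAlgebra.single (emb_Prim d n) c := fun n c => by
    simp
  have hm : ∀ v : Lat d, IsUnit (mono v) := fun v =>
    IsUnit.of_mul_eq_one (mono (-v)) (by rw [← mono_add, add_neg_cancel, mono_zero])
  refine abs_Prim (P := MvPolynomial (Fin d) ℤ) (AddMonoidAlgebra.mapDomainRingHom ℤ (emb_Prim d))
    (AddMonoidAlgebra.mapDomain_injective fun a b hab => Finsupp.ext fun i =>
      Nat.cast_injective (R := ℤ) (congrFun hab i)) (fun r => ?_) ω hω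
  induction r using AddMonoidAlgebra.induction_linear with
  | zero => exact ⟨1, 0, by simp, by simp⟩
  | add r r' h h' =>
    obtain ⟨m, p, h1, h2⟩ := h
    obtain ⟨m', p', h1', h2'⟩ := h'
    refine ⟨m * m', m' * p + m * p', by rw [map_mul]; exact h1.mul h1', ?_⟩
    rw [map_add, map_mul, map_mul, map_mul, ← h2, ← h2']
    ring
  | single a c =>
    refine ⟨AddMonoidAlgebra.single (Finsupp.equivFunOnFinite.symm fun i => (-a i).toNat) 1,
      AddMonoidAlgebra.single (Finsupp.equivFunOnFinite.symm fun i => (a i).toNat) c, ?_, ?_⟩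
    · rw [hs]
      exact hm _
    · rw [hs, hs, AddMonoidAlgebra.single_mul_single, one_mul]
      congr 1
      funext i
      change (((-a i).toNat : ℕ) : ℤ) + a i = (((a i).toNat : ℕ) : ℤ)
      omega

end Pool.Agent.MP_4168de_an.G
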