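import Pool.Agent.MP_4168de_an.G.Alg0

/-! Alternating tensors with slices in a subspace. -/

namespace Pool.Agent.MP_4168de_an.G

open Matrix

section

variable {A : Type} [Fintype A] [DecidableEq A] {ρ : ℕ} {U : Submodule ℂ (A → ℂ)}

/-- The multilinear form of a tensor. -/
noncomputable def form_Tens (ω : (Fin ρ → A) → ℂ) :
    MultilinearMap ℂ (fun _ : Fin ρ => A → ℂ) ℂ :=
  ∑ K : Fin ρ → A, ω K • (MultilinearMap.mkPiAlgebra ℂ (Fin ρ) ℂ).compLinearMap
    fun i => LinearMap.proj (K i)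

theorem form_apply_Tens (ω : (Fin ρ → A) → ℂ) (f : Fin ρ → A → ℂ) :
    form_Tens ω f = ∑ K : Fin ρ → A, (∏ i, f i (K i)) * ω K := by
  simp [form_Tens, mul_comm]

variable {ω : (Fin ρ → A) → ℂ}

theorem kill_Tens (hU : ∀ K i, (fun x => ω (Function.update K i x)) ∈ U) (f : Fin ρ → A → ℂ)
    (i : Fin ρ) (h : ∀ v ∈ U, f i ⬝ᵥ v = 0) : form_Tens ω f = 0 := by
  rw [form_apply_Tens, ← (Equiv.funSplitAt i A).symm.sum_comp, Fintype.sum_prod_type_right]
  refine Finset.sum_eq_zero fun K' _ => ?_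
  rcases isEmpty_or_nonempty A with hA | ⟨⟨x0⟩⟩
  · simp
  obtain ⟨K0, hK0⟩ : ∃ K0, K0 = (Equiv.funSplitAt i A).symm (x0, K') := ⟨_, rfl⟩
  have e : ∀ x, (Equiv.funSplitAt i A).symm (x, K') = Function.update K0 i x := by
    intro x
    funext j
    by_cases hj : j = i
    · subst hj
      simp
    · simp [hK0, hj]
  have e2 : ∀ x, ∏ j, f j (Function.update K0 i x j) =
      (∏ j ∈ Finset.univ.erase i, f j (K0 j)) * f i x := by
    intro x
    rw [← Finset.prod_erase_mul _ _ (Finset.mem_univ i), Function.update_self]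
    congr 1
    exact Finset.prod_congr rfl fun j hj => by
      rw [Function.update_of_ne (Finset.ne_of_mem_erase hj)]
  simp only [e, e2, mul_assoc]
  rw [← Finset.mul_sum]
  exact mul_eq_zero_of_right _ (h _ (hU K0 i))

theorem congr_Tens (hU : ∀ K i, (fun x => ω (Function.update K i x)) ∈ U)
    (f f' : Fin ρ → A → ℂ) (h : ∀ i, ∀ v ∈ U, f i ⬝ᵥ v = f' i ⬝ᵥ v) :
    form_Tens ω f = form_Tens ω f' := by
  conv_lhs => rw [← sub_add_cancel f f']
  rw [MultilinearMap.map_add_univ, Finset.sum_eq_single ∅ ?_ (by simp), Finset.piecewise_empty]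
  intro s _ hs
  obtain ⟨i, hi⟩ := Finset.nonempty_iff_ne_empty.2 hs
  refine kill_Tens hU _ i fun v hv => ?_
  rw [Finset.piecewise_eq_of_mem _ _ _ hi, Pi.sub_apply, sub_dotProduct, h i v hv, sub_self]

theorem single_Tens (ω : (Fin ρ → A) → ℂ) (K : Fin ρ → A) :
    form_Tens ω (fun i => Pi.single (K i) 1) = ω K := by
  rw [form_apply_Tens, Finset.sum_eq_single K ?_ (by simp)]
  · simp
  · intro K' _ hK
    obtain ⟨i, hi⟩ := Function.ne_iff.1 hK
    rw [Finset.prod_eq_zero (Finset.mem_univ i) (Pi.single_eq_of_ne hi _), zero_mul]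

theorem coord_Tens {ι : Type} [Fintype ι] {ψ : ι → A → ℂ}
    (h : ∀ v ∈ U, (∀ j, ψ j ⬝ᵥ v = 0) → v = 0) (x : A) :
    ∃ t : ι → ℂ, ∀ v ∈ U, Pi.single x 1 ⬝ᵥ v = (∑ j, t j • ψ j) ⬝ᵥ v := by
  let L : (A → ℂ) → U →ₗ[ℂ] ℂ := fun w =>
    { toFun := fun v => w ⬝ᵥ (v : A → ℂ)
      map_add' := fun a b => dotProduct_add _ _ _
      map_smul' := fun c a => dotProduct_smul _ _ _ }
  have h1 : L (Pi.single x 1) ∈ Submodule.span ℂ (Set.range fun j => L (ψ j)) := by
    refine mem_span_of_iInf_ker_le_ker fun v hv => ?_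
    have h0 : (v : A → ℂ) = 0 := h v v.2 fun j => (Submodule.mem_iInf _).1 hv j
    change Pi.single x 1 ⬝ᵥ (v : A → ℂ) = 0
    rw [h0, dotProduct_zero]
  obtain ⟨t, ht⟩ := (Submodule.mem_span_range_iff_exists_fun ℂ).1 h1
  refine ⟨t, fun v hv => ?_⟩
  have h2 := LinearMap.congr_fun ht ⟨v, hv⟩
  rw [LinearMap.sum_apply] at h2
  rw [sum_dotProduct]
  exact h2.symm.trans (Finset.sum_congr rfl fun j _ => (smul_dotProduct (t j) (ψ j) v).symm)

end

theorem tens_stmt : TensStmt := by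
  intro A ι _ _ _ ρ U ψ ω hψ hω hU halt
  classical
  choose t ht using coord_Tens hψ
  obtain ⟨g, hg⟩ : ∃ g : Fin ρ → ι, form_Tens ω (fun i => ψ (g i)) ≠ 0 := by
    by_contra hn
    push Not at hn
    refine hω (funext fun K => ?_)
    rw [← single_Tens ω K, congr_Tens hU _ (fun i => ∑ j, t (K i) j • ψ j) fun i => ht (K i),
      MultilinearMap.map_sum]
    refine Finset.sum_eq_zero fun g _ => ?_
    rw [MultilinearMap.map_smul_univ, hn, smul_zero]
  refine ⟨g, fun i j hij => ?_, fun M lam s hM hs => ?_⟩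
  · by_contra hne
    refine hg (self_eq_neg.1 ?_)
    conv_lhs => rw [form_apply_Tens,
      ← ((Equiv.swap i j).arrowCongr (Equiv.refl A)).symm.sum_comp]
    rw [form_apply_Tens, ← Finset.sum_neg_distrib]
    refine Finset.sum_congr rfl fun K _ => ?_
    change (∏ l, ψ (g l) (K (Equiv.swap i j l))) * ω (K ∘ Equiv.swap i j) = _
    rw [halt K i j hne, mul_neg, ← Equiv.prod_comp (Equiv.swap i j) fun l => ψ (g l) (K l)]
    congr 2
    exact Finset.prod_congr rfl fun l _ => by rw [Equiv.apply_swap_eq_self hij]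
  · have h1 : form_Tens ω (fun i => ∑ x, ψ (g i) x • M x) =
        s * form_Tens ω fun i => ψ (g i) := by
      rw [MultilinearMap.map_sum, form_apply_Tens, Finset.mul_sum]
      refine Finset.sum_congr rfl fun I _ => ?_
      rw [MultilinearMap.map_smul_univ, form_apply_Tens, hs, smul_eq_mul]
      ring
    rw [congr_Tens hU _ (fun i => lam (g i) • ψ (g i)) fun i v hv => ?_,
      MultilinearMap.map_smul_univ, smul_eq_mul] at h1
    · exact (mul_right_cancel₀ hg h1).symm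
    · rw [smul_dotProduct, smul_eq_mul, ← hM _ v hv, sum_dotProduct]
      exact Finset.sum_congr rfl fun x _ => smul_dotProduct _ _ _

end Pool.Agent.MP_4168de_an.G
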