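import Pool.Agent.MP_4168de_an.G.Stmt

/-! Two stacks with different tiles over one internal point. -/

namespace Pool.Agent.MP_4168de_an.G

open Set Filter Topology Shift Matrix

variable {A : Type} [Fintype A] [DecidableEq A] [TopologicalSpace A] [DiscreteTopology A]
  {D : Shift A} {ℓ : A → ℝ} {c : ℝ} {σ : DSub D ℓ c} {d e : ℕ} (C : Cover σ d e)

theorem nc_closed_Two {Y : Type} [TopologicalSpace Y] {f g : Y → D.X × Lat d} (hf : Continuous f)
    (hg : Continuous g) : IsClosed {q | C.NC (f q) (g q)} := by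
  have e1 : {q | C.NC (f q) (g q)} = ⋂ k : ℕ, ⋂ m : ℤ, ⋂ n : ℤ,
      (fun q => (Cover.lab (C.s m (C.S^[k] (f q))), Cover.lab (C.s n (C.S^[k] (g q))))) ⁻¹'
        {t | t.1 ≠ t.2} := by
    ext q
    simp only [mem_iInter, mem_preimage]
    constructor
    · intro h k m n h'
      exact h k _ ⟨m, h'⟩ ⟨n, rfl⟩
    · rintro h k t ⟨m, h1⟩ ⟨n, h2⟩
      exact h k m n (h1.trans h2.symm)
  rw [e1]
  refine isClosed_iInter fun k => isClosed_iInter fun m => isClosed_iInter fun n =>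
    (isClosed_discrete _).preimage (Continuous.prodMk ?_ ?_)
  · exact Cover.continuous_lab.comp ((C.continuous_s m).comp ((C.continuous_S.iterate k).comp hf))
  · exact Cover.continuous_lab.comp ((C.continuous_s n).comp ((C.continuous_S.iterate k).comp hg))

theorem closed_Two {r : ℕ} (i₀ : Fin r) (α R : ℝ) (P : (Fin r → A × Lat d) → Prop) :
    IsClosed {β | ‖β‖ ≤ R ∧ ∃ y : Fin r → D.X × Lat d, C.Stack β y ∧ (∀ i, y i ∈ C.K α β) ∧
      P fun i => Cover.lab (y i)} := by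
  have hz : ∀ i, Continuous fun y : Fin r → D.X × Lat d => C.z (y i) := fun i =>
    C.continuous_z.comp (continuous_apply i)
  have hl : Continuous fun (y : Fin r → D.X × Lat d) i => Cover.lab (y i) :=
    continuous_pi fun i => Cover.continuous_lab.comp (continuous_apply i)
  have h1 : IsClosed {y : Fin r → D.X × Lat d | ‖C.z (y i₀)‖ ≤ R ∧ (∀ i, C.z (y i) = C.z (y i₀)) ∧
      (∀ i j, i ≠ j → C.NC (y i) (y j)) ∧ (fun i => Cover.lab (y i)) ∈
        {t : Fin r → A × Lat d | (∀ i, C.tm (t i) ≤ α ∧ α < C.tm (t i) + ℓ (t i).1) ∧ P t}} := by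
    refine (isClosed_le (hz i₀).norm continuous_const).and (IsClosed.and ?_ (IsClosed.and ?_
      ((isClosed_discrete _).preimage hl)))
    · rw [ofPred_forall]
      exact isClosed_iInter fun i => isClosed_eq (hz i) (hz i₀)
    · simp only [ofPred_forall]
      exact isClosed_iInter fun i => isClosed_iInter fun j => isClosed_iInter fun _ =>
        nc_closed_Two C (continuous_apply i) (continuous_apply j)
  obtain ⟨l₀, l₁, -, -, h2⟩ := C.len_bounds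
  obtain ⟨V, hV, h⟩ := C.K_box (|α| + |l₁| + |R|)
  have h3 := (isCompact_univ_pi fun _ : Fin r =>
    (isCompact_univ (X := D.X)).prod hV.isCompact).of_isClosed_subset h1 (by
      rintro y ⟨a1, a2, -, a3, -⟩ i -
      have a4 : C.p (y i) ≤ α := (a3 i).1
      have a5 : α < C.p (y i) + ℓ ((y i).1.1 0) := (a3 i).2
      refine ⟨trivial, h (y i) (abs_le.2 ⟨?_, ?_⟩) ?_⟩
      · linarith [neg_abs_le α, le_abs_self l₁, h2 ((y i).1.1 0), abs_nonneg R]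
      · linarith [le_abs_self α, abs_nonneg l₁, abs_nonneg R]
      · rw [a2 i]
        linarith [abs_nonneg α, abs_nonneg l₁, le_abs_self R])
  convert (h3.image (hz i₀)).isClosed using 1
  ext β
  constructor
  · rintro ⟨a1, y, ⟨a2, a3⟩, a4, a5⟩
    exact ⟨y, ⟨(a2 i₀).symm ▸ a1, fun i => (a2 i).trans (a2 i₀).symm, a3, fun i => (a4 i).2, a5⟩,
      a2 i₀⟩
  · rintro ⟨y, ⟨a1, a2, a3, a4, a5⟩, rfl⟩
    exact ⟨a1, y, ⟨a2, a3⟩, fun i => ⟨a2 i, a4 i⟩, a5⟩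

omit [DiscreteTopology A] in
theorem rebase_Two {r : ℕ} (α : ℝ) {β : Fin e → ℝ} {y : Fin r → D.X × Lat d} (h : C.Stack β y) :
    ∃ y' : Fin r → D.X × Lat d, C.Stack β y' ∧ ∀ i, y' i ∈ C.K α β := by
  choose n hn using fun i => C.exists_K (y i) α
  exact ⟨fun i => C.s (n i) (y i), ⟨fun i => (C.z_s _ _).trans (h.1 i),
    fun i j hij => (h.2 i j hij).s _ _⟩, fun i => h.1 i ▸ hn i⟩

theorem main_Two {r : ℕ} (i₀ : Fin r) (hS : ∀ β, ∃ y : Fin r → D.X × Lat d, C.Stack β y) :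
    ∃ (β : Fin e → ℝ) (y y' : Fin r → D.X × Lat d) (t : A × Lat d),
      C.Stack β y ∧ C.Stack β y' ∧ (∃ i, C.On (y i) t) ∧ ∀ i, ¬ C.On (y' i) t := by
  have hS' : ∀ β, ∃ y : Fin r → D.X × Lat d, C.Stack β y ∧ ∀ i, y i ∈ C.K 0 β := fun β =>
    (hS β).elim fun y hy => rebase_Two C 0 hy
  obtain ⟨y₀, b1, b2⟩ := hS' 0
  obtain ⟨W, hW⟩ := isCompact_univ.exists_bound_of_continuousOn C.contM.continuousOn
  obtain ⟨R, hR0, hR⟩ : ∃ R : ℝ, 0 ≤ R ∧ ∀ x, ‖C.M x + C.b (y₀ i₀).2‖ < R :=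
    ⟨|W| + ‖C.b (y₀ i₀).2‖ + 1, by positivity, fun x => by
      linarith [norm_add_le (C.M x) (C.b (y₀ i₀).2), hW x trivial, le_abs_self W]⟩
  have hcov : Metric.closedBall (0 : Fin e → ℝ) R ⊆
      {β | ‖β‖ ≤ R ∧ ∃ y : Fin r → D.X × Lat d, C.Stack β y ∧ (∀ i, y i ∈ C.K 0 β) ∧
        (fun t : Fin r → A × Lat d => ∃ i, t i = Cover.lab (y₀ i₀)) fun i => Cover.lab (y i)} ∪
      {β | ‖β‖ ≤ R ∧ ∃ y : Fin r → D.X × Lat d, C.Stack β y ∧ (∀ i, y i ∈ C.K 0 β) ∧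
        (fun t : Fin r → A × Lat d => ¬ ∃ i, t i = Cover.lab (y₀ i₀)) fun i => Cover.lab (y i)} := by
    intro β hβ
    rw [mem_closedBall_zero_iff] at hβ
    obtain ⟨y, a1, a2⟩ := hS' β
    by_cases h : ∃ i, Cover.lab (y i) = Cover.lab (y₀ i₀)
    · exact Or.inl ⟨hβ, y, a1, a2, h⟩
    · exact Or.inr ⟨hβ, y, a1, a2, h⟩
  have : Nonempty (Fin e) := ⟨⟨0, C.L.he⟩⟩
  have hn : ‖fun _ : Fin e => R‖ = R := by rw [pi_norm_const, Real.norm_of_nonneg hR0]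
  have hmem : (fun _ : Fin e => R) ∈ Metric.closedBall (0 : Fin e → ℝ) R :=
    mem_closedBall_zero_iff.2 hn.le
  obtain ⟨β, -, ⟨-, y, a1, -, i, a2⟩, -, y', a3, a4, a5⟩ := isPreconnected_closed_iff.1
    (convex_closedBall (0 : Fin e → ℝ) R).isPreconnected _ _
    (closed_Two C i₀ 0 R fun t => ∃ i, t i = Cover.lab (y₀ i₀))
    (closed_Two C i₀ 0 R fun t => ¬ ∃ i, t i = Cover.lab (y₀ i₀)) hcov
    ⟨0, Metric.mem_closedBall_self hR0, by simpa using hR0, y₀, b1, b2, i₀, rfl⟩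
    ⟨_, hmem, (hcov hmem).resolve_left (by
      rintro ⟨-, y, a1, -, i, a2⟩
      have a3 : (y i).2 = (y₀ i₀).2 := congrArg (Prod.snd : A × Lat d → Lat d) a2
      have a4 := hR (y i).1
      rw [← a3] at a4
      change ‖C.z (y i)‖ < R at a4
      rw [a1.1 i, hn] at a4
      exact lt_irrefl _ a4)⟩
  refine ⟨β, y, y', Cover.lab (y₀ i₀), a1, a3, ⟨i, 0, by rw [C.s_zero]; exact a2⟩, ?_⟩
  rintro j ⟨n, h⟩
  have k1 : C.p (C.s n (y' j)) = C.p (y₀ i₀) := congrArg C.tm h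
  have k2 : (C.s n (y' j)).1.1 0 = (y₀ i₀).1.1 0 := congrArg Prod.fst h
  have k3 : C.s n (y' j) ∈ C.K 0 β :=
    ⟨(C.z_s _ _).trans (a3.1 j), k1 ▸ (b2 i₀).2.1, by rw [k1, k2]; exact (b2 i₀).2.2⟩
  have k4 : n = 0 := C.K_unique k3 (by rw [C.s_zero]; exact a4 j)
  rw [k4, C.s_zero] at h
  exact a5 ⟨j, h⟩

theorem two_stmt (hS : StackStmt) : TwoStmt := by
  intro A _ _ _ _ D ℓ c σ d e C Q
  exact main_Two C ⟨0, Q.m_pos⟩ (hS A D ℓ c σ d e C Q)

end Pool.Agent.MP_4168de_an.G
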