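import Pool.Agent.MP_4168de_an.G.Glue2
import Pool.Agent.MP_4168de_an.G.Limit
import Pool.Agent.MP_4168de_an.G.Orbit
import Pool.Agent.MP_4168de_an.G.Full
import Pool.Agent.MP_4168de_an.G.Prim
import Pool.Agent.MP_4168de_an.G.Ev
import Pool.Agent.MP_4168de_an.G.Tens
import Pool.Agent.MP_4168de_an.G.Cramer
import Pool.Agent.MP_4168de_an.G.Alg
import Pool.Agent.MP_4168de_an.G.Pisot
import Pool.Agent.MP_4168de_an.G.Lin
import Pool.Agent.MP_4168de_an.G.Lin2
import Pool.Agent.MP_4168de_an.G.Cech2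
import Pool.Agent.MP_4168de_an.G.Mat
import Pool.Agent.MP_4168de_an.G.Cob
import Pool.Agent.MP_4168de_an.G.Graph
import Pool.Agent.MP_4168de_an.G.Cover
import Pool.Agent.MP_4168de_an.G.Box
import Pool.Agent.MP_4168de_an.G.Stack
import Pool.Agent.MP_4168de_an.G.Two
import Pool.Agent.MP_4168de_an.G.Porous
import Pool.Agent.MP_4168de_an.G.Null
import Pool.Agent.MP_4168de_an.G.Nonzero
import Pool.Agent.MP_4168de_an.G.One
import Pool.Agent.MP_4168de_an.G.Fibre
import Pool.Agent.MP_4168de_an.G.Ae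
import Pool.Agent.MP_4168de_an.G.Spec

/-! All statements together. -/

namespace Pool.Agent.MP_4168de_an.G

theorem alg_all : AlgStmt := alg_stmt prim_stmt ev_stmt tens_stmt cramer_stmt.1 cramer_stmt.2

theorem stack_all : StackStmt := stack_stmt box_stmt.2.1

theorem full_all : FullStmt :=
  full_stmt alg_all null_stmt
    (nonzero_stmt (two_stmt stack_all) box_stmt.2.2 box_stmt.2.1 porous_stmt null_stmt)

theorem one_all : OneStmt := (one_stmt stack_all null_stmt).2

theorem spec_all : SpecStmt := spec_stmt fibre_stmt.1 (ae_stmt fibre_stmt.1 fibre_stmt.2)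

theorem graph_all : GraphStmt := graph_stmt mat_stmt.2 (cob_stmt mat_stmt.1)

theorem cover_all : CoverStmt := cover_stmt lin2_stmt

end Pool.Agent.MP_4168de_an.G
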